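import Pool.Agent.KS6_49.ID.Swap
import Pool.Agent.KS6_49.ID.Tri

/-!
# Iso-dual binary polycyclic codes from trinomials

Let `t = x^n + x^i + 1` over the field with two elements and let `g` divide `t`.

* If `g ^ 2 = t` then the polycyclic code generated by `g` is iso-dual.
* If `n = 2 m`, `i = m` and `g` times its reciprocal polynomial is `t`, then the polycyclic code
  generated by `g` is iso-dual (the exchange of the two halves of the coordinates maps it onto its
  dual).
* Suppose that `x^(2m) + x^m + 1 = q p p*` where `q` is self-reciprocal and `p` is not. Then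
  `g = q p^2` satisfies `g g* = x^(4m) + x^(2m) + 1` and `g^2` is different from this trinomial.
* This happens for every `m` divisible by 5 or by 7.
-/

namespace Pool.Agent.Results.MP_f969e6_lc.ManyLengths

open Polynomial Pool.Agent.KS6_49.ID

theorem square_case {n i : ℕ} (hi : 1 ≤ i) (hin : i < n) {g : (ZMod 2)[X]}
    (hg : g ^ 2 = tri n i) : IsIsoDual (polycyclic n (tri n i) g) := by
  -- the exponents are even
  have hdegt : (tri n i).natDegree = n := tri_natDegree hin
  have hn : n = 2 * g.natDegree := by rw [← hdegt, ← hg, natDegree_pow]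
  have hie : 2 ∣ i := by
    by_contra h
    have h1 : derivative (tri n i) = 0 := by
      rw [← hg, derivative_pow]
      have : ((2 : ℕ) : ZMod 2) = 0 := by decide
      rw [this]; simp
    have h2 : (derivative (tri n i)).coeff (i - 1) = 1 := by
      rw [coeff_derivative, show i - 1 + 1 = i by omega]
      unfold tri
      rw [coeff_add, coeff_add, coeff_X_pow, coeff_X_pow, coeff_one, if_neg (by omega),
        if_pos rfl, if_neg (by omega)]
      have h3 : ((i - 1 : ℕ) : ZMod 2) + 1 = 1 := by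
        have : ((i - 1 : ℕ) : ZMod 2) = 0 := by
          rw [ZMod.natCast_eq_zero_iff]; omega
        rw [this]; simp
      rw [h3]; simp
    rw [h1] at h2
    simp at h2
  obtain ⟨j, rfl⟩ := hie
  obtain ⟨m, hm⟩ : ∃ m, m = g.natDegree := ⟨_, rfl⟩
  rw [← hm] at hn
  subst hn
  have hj : 0 < j := by omega
  have hjm : j < m := by omega
  have hg2 : g = X ^ m + X ^ j + 1 := by
    have h1 : (g - (X ^ m + X ^ j + 1)) ^ 2 = 0 := by
      have h2 : (2 : (ZMod 2)[X]) = 0 := CharTwo.two_eq_zero
      unfold tri at hg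
      rw [pow_mul', pow_mul'] at hg
      linear_combination hg + (-(g * (X ^ m + X ^ j + 1)) +
        ((X ^ m) ^ 2 + (X ^ j) ^ 2 + 1 + X ^ m * X ^ j + X ^ m + X ^ j)) * h2
    have h2 := pow_eq_zero_iff (two_ne_zero) |>.mp h1
    exact sub_eq_zero.mp h2
  have hdvd : g ∣ tri (2 * m) (2 * j) := ⟨g, by rw [← hg]; ring⟩
  have hset : polycyclic (2 * m) (tri (2 * m) (2 * j)) g = (codeSub (2 * m) g : Set _) := by
    ext c
    rw [mem_polycyclic hdvd, SetLike.mem_coe, mem_codeSub]
  rw [hset]
  have hmon : g.Monic := by rw [hg2]; exact tri_monic hjm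
  have hf := finrank_codeSub (n := 2 * m) hmon (by omega)
  refine isIsoDual_of_orth _ (by omega) (triPerm m j hj hjm) ?_
  intro c hc d hd
  rw [mem_codeSub, hg2] at hc hd
  exact orth_tri hj hjm c d hc hd

theorem reciprocal_case {m : ℕ} (hm : 1 ≤ m) {g : (ZMod 2)[X]}
    (hg : g * g.reverse = tri (2 * m) m) :
    IsIsoDual (polycyclic (2 * m) (tri (2 * m) m) g) := by
  have hlt : m < 2 * m := by omega
  have hne : tri (2 * m) m ≠ 0 := by
    intro h
    have := tri_natDegree hlt
    unfold tri at h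
    rw [h] at this
    simp at this; omega
  have hg0 : g ≠ 0 := by
    rintro rfl
    rw [zero_mul] at hg
    exact hne hg.symm
  have hr0 : g.reverse ≠ 0 := by rwa [Ne, reverse_eq_zero]
  have hc : g.coeff 0 ≠ 0 := by
    intro h0
    have h1 : (g * g.reverse).coeff 0 = 0 := by rw [mul_coeff_zero, h0, zero_mul]
    rw [hg] at h1
    unfold tri at h1
    rw [coeff_add, coeff_add, coeff_X_pow, coeff_X_pow, coeff_one, if_neg (by omega),
      if_neg (by omega), if_pos rfl] at h1
    simp at h1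
  have hdeg : g.natDegree = m := by
    have h1 : (g * g.reverse).natDegree = 2 * m := by rw [hg]; exact tri_natDegree hlt
    rw [natDegree_mul hg0 hr0, reverse_natDegree,
      natTrailingDegree_eq_zero.mpr (Or.inr hc)] at h1
    omega
  have hmon : g.Monic := by
    have : g.leadingCoeff ≠ 0 := leadingCoeff_ne_zero.mpr hg0
    have h2 : ∀ a : ZMod 2, a ≠ 0 → a = 1 := by decide
    exact h2 _ this
  have hdvd : g ∣ tri (2 * m) m := ⟨g.reverse, hg.symm⟩
  have hset : polycyclic (2 * m) (tri (2 * m) m) g = (codeSub (2 * m) g : Set _) := by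
    ext c
    rw [mem_polycyclic hdvd, SetLike.mem_coe, mem_codeSub]
  rw [hset]
  have hf := finrank_codeSub (n := 2 * m) hmon (by omega)
  refine isIsoDual_of_orth _ (by omega) (halfSwap m) ?_
  intro c hc d hd
  rw [mem_codeSub] at hc hd
  exact orth_swap (by omega) hdeg hg c d hc hd

theorem reverse_tri {m j : ℕ} (hjm : j < m) :
    (X ^ m + X ^ j + 1 : (ZMod 2)[X]).reverse = X ^ m + X ^ (m - j) + 1 := by
  unfold reverse
  rw [tri_natDegree hjm, reflect_add, reflect_add, reflect_monomial, reflect_monomial,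
    revAt_le le_rfl, revAt_le hjm.le, Nat.sub_self, pow_zero]
  have : reflect m (1 : (ZMod 2)[X]) = X ^ m := by
    have := reflect_monomial (R := ZMod 2) m 0
    rw [pow_zero, revAt_zero] at this
    exact this
  rw [this]; ring

theorem reverse_pow' (g : (ZMod 2)[X]) (k : ℕ) : (g ^ k).reverse = g.reverse ^ k := by
  induction k with
  | zero =>
    rw [pow_zero, pow_zero, ← C_1]
    exact reverse_C 1
  | succ k ih => rw [pow_succ, reverse_mul_of_domain, ih, pow_succ]

theorem reverse_expand {r : ℕ} (hr : 0 < r) (f : (ZMod 2)[X]) :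
    (expand (ZMod 2) r f).reverse = expand (ZMod 2) r f.reverse := by
  ext n
  rw [coeff_expand hr, reverse, coeff_reflect, natDegree_expand, coeff_expand hr, reverse,
    coeff_reflect]
  rcases le_or_gt n (f.natDegree * r) with h | h
  · rw [revAt_le h]
    by_cases hd : r ∣ n
    · obtain ⟨k, rfl⟩ := hd
      have hk : k ≤ f.natDegree := by
        rw [mul_comm] at h
        exact Nat.le_of_mul_le_mul_right h hr
      rw [if_pos ⟨f.natDegree - k, by rw [Nat.mul_sub, mul_comm r f.natDegree]⟩,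
        if_pos (Dvd.intro _ rfl), Nat.mul_div_cancel_left _ hr, revAt_le hk]
      congr 1
      rw [mul_comm f.natDegree r, ← Nat.mul_sub, Nat.mul_div_cancel_left _ hr]
    · rw [if_neg hd, if_neg]
      intro h2
      apply hd
      have h3 := (Nat.dvd_sub (Dvd.intro_left f.natDegree rfl) h2 : r ∣ f.natDegree * r - (f.natDegree * r - n))
      rwa [Nat.sub_sub_self h] at h3
  · rw [revAt_eq_self_of_lt h]
    by_cases hd : r ∣ n
    · obtain ⟨k, rfl⟩ := hd
      have hk : f.natDegree < k := by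
        rw [mul_comm] at h
        exact lt_of_mul_lt_mul_left h (Nat.zero_le r)
      rw [if_pos (Dvd.intro _ rfl), if_pos (Dvd.intro _ rfl), Nat.mul_div_cancel_left _ hr,
        revAt_eq_self_of_lt hk]
    · rw [if_neg hd, if_neg hd]

/-- The general construction. -/
theorem product_case {m : ℕ} (hm : 1 ≤ m) {p q : (ZMod 2)[X]} (hq : q.reverse = q)
    (hp : p ≠ p.reverse) (h : q * (p * p.reverse) = tri (2 * m) m) :
    ∃ g : (ZMod 2)[X], g.Monic ∧ g ∣ tri (4 * m) (2 * m) ∧ g ^ 2 ≠ tri (4 * m) (2 * m) ∧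
      IsIsoDual (polycyclic (4 * m) (tri (4 * m) (2 * m)) g) := by
  have hlt : m < 2 * m := by omega
  have hmonic : (tri (2 * m) m).Monic := tri_monic hlt
  have hne : tri (2 * m) m ≠ 0 := hmonic.ne_zero
  have hq0 : q ≠ 0 := by rintro rfl; rw [zero_mul] at h; exact hne h.symm
  have hp0 : p ≠ 0 := by rintro rfl; rw [zero_mul, mul_zero] at h; exact hne h.symm
  have hpr0 : p.reverse ≠ 0 := by rwa [Ne, reverse_eq_zero]
  have hsq : tri (4 * m) (2 * m) = tri (2 * m) m ^ 2 := by
    unfold tri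
    have h2 : (2 : (ZMod 2)[X]) = 0 := CharTwo.two_eq_zero
    have e1 : 4 * m = 2 * m * 2 := by ring
    have e2 : 2 * m = m * 2 := by ring
    rw [e1, pow_mul]
    nth_rewrite 2 [e2]
    rw [pow_mul X m 2]
    linear_combination -(X ^ (2 * m) * X ^ m + X ^ (2 * m) + X ^ m) * h2
  have hprr : p.reverse.reverse = p := by
    -- the constant term of `p` is nonzero
    have hc : p.coeff 0 ≠ 0 := by
      intro h0
      have h1 : (q * (p * p.reverse)).coeff 0 = 0 := by
        rw [mul_coeff_zero, mul_coeff_zero, h0, zero_mul, mul_zero]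
      rw [h] at h1
      unfold tri at h1
      rw [coeff_add, coeff_add, coeff_X_pow, coeff_X_pow, coeff_one, if_neg (by omega),
        if_neg (by omega), if_pos rfl] at h1
      simp at h1
    have hd : p.reverse.natDegree = p.natDegree := by
      rw [reverse_natDegree, natTrailingDegree_eq_zero.mpr (Or.inr hc), Nat.sub_zero]
    conv_lhs => rw [reverse, hd, reverse]
    exact reflect_reflect
  set g : (ZMod 2)[X] := q * p ^ 2 with hg
  have hgr : g.reverse = q * p.reverse ^ 2 := by
    rw [hg, reverse_mul_of_domain, hq, reverse_pow']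
  have hgg : g * g.reverse = tri (4 * m) (2 * m) := by
    rw [hgr, hg, hsq, ← h]; ring
  refine ⟨g, ?_, ⟨_, hgg.symm⟩, ?_, ?_⟩
  · have hg0 : g ≠ 0 := mul_ne_zero hq0 (pow_ne_zero _ hp0)
    have : g.leadingCoeff ≠ 0 := leadingCoeff_ne_zero.mpr hg0
    have h2 : ∀ a : ZMod 2, a ≠ 0 → a = 1 := by decide
    exact h2 _ this
  · intro hcon
    rw [hsq, ← h] at hcon
    have h1 : q ^ 2 * p ^ 2 * (p ^ 2 - p.reverse ^ 2) = 0 := by
      rw [hg] at hcon
      linear_combination hcon
    have h3 : p ^ 2 - p.reverse ^ 2 = 0 := by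
      rcases mul_eq_zero.1 h1 with h4 | h4
      · exact absurd h4 (mul_ne_zero (pow_ne_zero _ hq0) (pow_ne_zero _ hp0))
      · exact h4
    have h5 : (p - p.reverse) ^ 2 = 0 := by
      have h2 : (2 : (ZMod 2)[X]) = 0 := CharTwo.two_eq_zero
      linear_combination h3 + (p.reverse ^ 2 - p * p.reverse) * h2
    exact hp (sub_eq_zero.mp (pow_eq_zero_iff two_ne_zero |>.mp h5))
  · have e : 4 * m = 2 * (2 * m) := by ring
    rw [e] at hgg ⊢
    exact reciprocal_case (by omega) hgg

theorem expand_case {m : ℕ} (hm : 1 ≤ m) {p q : (ZMod 2)[X]} (hq : q.reverse = q)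
    (hp : p ≠ p.reverse) (h : q * (p * p.reverse) = tri (2 * m) m) {r : ℕ} (hr : 0 < r) :
    ∃ g : (ZMod 2)[X], g.Monic ∧ g ∣ tri (4 * (m * r)) (2 * (m * r)) ∧
      g ^ 2 ≠ tri (4 * (m * r)) (2 * (m * r)) ∧
      IsIsoDual (polycyclic (4 * (m * r)) (tri (4 * (m * r)) (2 * (m * r))) g) := by
  have hmr : 1 ≤ m * r := Nat.mul_pos hm hr
  refine product_case hmr (p := expand (ZMod 2) r p) (q := expand (ZMod 2) r q) ?_ ?_ ?_
  · rw [reverse_expand hr, hq]
  · rw [reverse_expand hr]
    intro h1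
    exact hp (expand_injective hr h1)
  · rw [reverse_expand hr, ← map_mul, ← map_mul, h]
    unfold tri
    rw [map_add, map_add, map_pow, map_pow, expand_X, map_one, ← pow_mul, ← pow_mul]
    congr 3
    · ring
    · ring

/-- the self-reciprocal factor `x^2+x+1` -/
theorem rev_q : (X ^ 2 + X ^ 1 + 1 : (ZMod 2)[X]).reverse = X ^ 2 + X ^ 1 + 1 :=
  reverse_tri (by norm_num)

theorem rev_p7 : (X ^ 6 + X ^ 4 + X ^ 2 + X ^ 1 + 1 : (ZMod 2)[X]).reverse =
    X ^ 6 + X ^ 5 + X ^ 4 + X ^ 2 + 1 := by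
  have hd : (X ^ 6 + X ^ 4 + X ^ 2 + X ^ 1 + 1 : (ZMod 2)[X]).natDegree = 6 := by
    compute_degree!
  unfold reverse
  rw [hd, reflect_add, reflect_add, reflect_add, reflect_add, reflect_monomial, reflect_monomial,
    reflect_monomial, reflect_monomial, revAt_le (by norm_num), revAt_le (by norm_num),
    revAt_le (by norm_num), revAt_le (by norm_num)]
  have : reflect 6 (1 : (ZMod 2)[X]) = X ^ 6 := by
    have := reflect_monomial (R := ZMod 2) 6 0
    rw [pow_zero, revAt_zero] at this
    exact this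
  rw [this]; ring

/-- **Main theorem.** (1) If `g² = x^n + x^i + 1` over `𝔽₂` then the polycyclic code generated by `g`
is iso-dual. (2) For every `m ≥ 1` divisible by `5` or by `7` there is a monic divisor `g` of
`x^{4m} + x^{2m} + 1` which generates an iso-dual polycyclic code although `g²` is not
`x^{4m} + x^{2m} + 1`. -/
theorem result :
    (∀ n i : ℕ, 1 ≤ i → i < n → ∀ g : (ZMod 2)[X], g ^ 2 = tri n i →
      IsIsoDual (polycyclic n (tri n i) g)) ∧
    (∀ m : ℕ, 1 ≤ m → (5 ∣ m ∨ 7 ∣ m) → ∃ g : (ZMod 2)[X], g.Monic ∧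
      g ∣ tri (4 * m) (2 * m) ∧ g ^ 2 ≠ tri (4 * m) (2 * m) ∧
      IsIsoDual (polycyclic (4 * m) (tri (4 * m) (2 * m)) g)) := by
  have h2 : (2 : (ZMod 2)[X]) = 0 := CharTwo.two_eq_zero
  refine ⟨fun n i hi hin g hg => square_case hi hin hg, fun m hm h => ?_⟩
  rcases h with ⟨r, rfl⟩ | ⟨r, rfl⟩
  · have hr : 0 < r := by omega
    refine expand_case (m := 5) (p := X ^ 4 + X ^ 1 + 1) (q := X ^ 2 + X ^ 1 + 1) (by norm_num)
      rev_q ?_ ?_ hr
    · rw [reverse_tri (by norm_num)]
      intro h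
      have h3 := congrArg (fun p => coeff p 1) h
      simp [coeff_X, coeff_one] at h3
    · rw [reverse_tri (by norm_num)]
      unfold tri
      linear_combination (X ^ 1 + X ^ 2 + X ^ 3 + 2 * X ^ 4 + 2 * X ^ 5 + 2 * X ^ 6 + X ^ 7 +
        X ^ 8 + X ^ 9) * h2
  · have hr : 0 < r := by omega
    refine expand_case (m := 7) (p := X ^ 6 + X ^ 4 + X ^ 2 + X ^ 1 + 1) (q := X ^ 2 + X ^ 1 + 1)
      (by norm_num) rev_q ?_ ?_ hr
    · rw [rev_p7]
      intro h
      have h3 := congrArg (fun p => coeff p 1) h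
      simp [coeff_X, coeff_one] at h3
    · rw [rev_p7]
      unfold tri
      linear_combination (1 * X ^ 1 + 2 * X ^ 2 + 2 * X ^ 3 + 3 * X ^ 4 + 3 * X ^ 5 + 5 * X ^ 6 +
        4 * X ^ 7 + 5 * X ^ 8 + 3 * X ^ 9 + 3 * X ^ 10 + 2 * X ^ 11 + 2 * X ^ 12 +
        1 * X ^ 13) * h2

end Pool.Agent.Results.MP_f969e6_lc.ManyLengths
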